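import Mathlib
import Pool.Agent.Lib.MP_cfe824_nt.Orbit

set_option autoImplicit false

namespace Pool.Agent.Results.MP_cfe824_nt.Full

open Pool.Agent.Lib.MP_cfe824_nt

/-- The Mordell curve y^2 = x^3 + b over the rationals
(Weierstrass coefficients a1 = a2 = a3 = a4 = 0, a6 = b). -/
def E (b : ℤ) : WeierstrassCurve ℚ := ⟨0, 0, 0, 0, (b : ℚ)⟩

/-- The rank of the Mordell-Weil group of E b, as the rank of a module over the integers. -/
noncomputable def rk (b : ℤ) : Cardinal := Module.rank ℤ (E b).toAffine.Point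

/-- The pair (a, Q) is a proper solution. -/
def IsProper (a Q : ℤ) : Prop :=
  (¬ ∃ t : ℤ, Q = t ^ 2 ∨ Q = t ^ 3) ∧ ∀ i : ℕ, 0 < rk (a * Q ^ i)

lemma rk_pos_iff (b : ℤ) : 0 < rk b ↔ Good (b : ℚ) := rank_pos_iff (b : ℚ)

lemma norm_odd {n : ℤ} (hn : Odd n) : padicNorm 2 (n : ℚ) = 1 := by
  rw [padicNorm.int_eq_one_iff]
  intro h
  exact (Int.not_even_iff_odd.mpr hn) (even_iff_two_dvd.mpr (by exact_mod_cast h))

lemma norm_four : padicNorm 2 (4 : ℚ) = 1 / 4 := by
  have h2 : padicNorm 2 (2 : ℚ) = 1 / 2 := by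
    have := padicNorm.padicNorm_p_of_prime (p := 2)
    simpa using this
  have : (4 : ℚ) = 2 * 2 := by norm_num
  rw [this, padicNorm.mul, h2]; norm_num

lemma good_two (a : ℤ) : Good ((a : ℚ) * (2 * (1 - 256 * a)) ^ 2) := by
  have hodd : Odd (1 - 256 * a) := ⟨-128 * a, by ring⟩
  refine good_two_adic (x0 := ((1 - 256 * a : ℤ) : ℚ) / 4) (y := (1 - 256 * a) / 8) ?_ ?_ ?_
  · have := padicNorm.of_int (p := 2) (a * (2 * (1 - 256 * a)) ^ 2)
    exact_mod_cast this
  · push_cast; ring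
  · rw [padicNorm.div, norm_odd hodd, norm_four]; norm_num

lemma good_four (a : ℤ) : Good ((a : ℚ) * (2 * (1 - 256 * a)) ^ 4) := by
  have hodd : Odd ((1 - 256 * a) ^ 2) := Odd.pow ⟨-128 * a, by ring⟩
  refine good_two_adic (x0 := (((1 - 256 * a) ^ 2 : ℤ) : ℚ) / 4)
    (y := (1 - 256 * a) ^ 2 * (1 + 256 * a) / 8) ?_ ?_ ?_
  · have := padicNorm.of_int (p := 2) (a * (2 * (1 - 256 * a)) ^ 4)
    exact_mod_cast this
  · push_cast; ring
  · rw [padicNorm.div, norm_odd hodd, norm_four]; norm_num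

lemma proper (a : ℤ) (h : 0 < rk a) (t : ℤ) (ht : Odd t) :
    IsProper a (-108 * (1 - 256 * a) ^ 2 * t ^ 6) := by
  have hodd : Odd (1 - 256 * a) := ⟨-128 * a, by ring⟩
  have hN : (1 - 256 * a) ≠ 0 := by omega
  have ht0 : t ≠ 0 := by rintro rfl; simp at ht
  have hNq : (1 - 256 * (a : ℚ)) ≠ 0 := by exact_mod_cast hN
  have htq : (t : ℚ) ≠ 0 := by exact_mod_cast ht0
  refine ⟨?_, ?_⟩
  · rintro ⟨s, hs | hs⟩
    · have h1 : 0 < (1 - 256 * a) ^ 2 * t ^ 6 := by positivity
      nlinarith [sq_nonneg s]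
    · have ho : Odd (27 * ((1 - 256 * a) ^ 2 * t ^ 6)) :=
        Odd.mul (by decide) (Odd.mul hodd.pow ht.pow)
      obtain ⟨k, hk⟩ := ho
      rcases Int.even_or_odd s with ⟨r, rfl⟩ | hso
      · have : -4 * (2 * k + 1) = 8 * r ^ 3 := by rw [← hk]; linear_combination hs
        omega
      · obtain ⟨j, hj⟩ := (hso.pow : Odd (s ^ 3))
        have : -4 * (2 * k + 1) = 2 * j + 1 := by rw [← hk, ← hj]; linear_combination hs
        omega
  · have step : ∀ i : ℕ, Good ((a : ℚ) * (-108 * (1 - 256 * a) ^ 2 * t ^ 6) ^ i) →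
        Good ((a : ℚ) * (-108 * (1 - 256 * a) ^ 2 * t ^ 6) ^ (i + 3)) := by
      intro i hi
      have hu : (6 * (1 - 256 * (a : ℚ)) * t ^ 3) ≠ 0 :=
        mul_ne_zero (mul_ne_zero (by norm_num) hNq) (pow_ne_zero _ htq)
      have := good_scale hu (good_isog hi)
      convert this using 1
      rw [pow_add]
      ring
    have all : ∀ i : ℕ, Good ((a : ℚ) * (-108 * (1 - 256 * a) ^ 2 * t ^ 6) ^ i) := by
      intro i
      induction i using Nat.strong_induction_on with
      | _ i ih =>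
        match i, ih with
        | 0, _ => simpa using (rk_pos_iff a).mp h
        | 1, _ =>
          have := good_scale htq (good_isog (good_two a))
          convert this using 1
          ring
        | 2, _ =>
          have hu : (3 * (t : ℚ) ^ 2) ≠ 0 := mul_ne_zero (by norm_num) (pow_ne_zero _ htq)
          have := good_scale hu (good_four a)
          convert this using 1
          ring
        | (i + 3), ih => exact step i (ih i (by omega))
    intro i
    rw [rk_pos_iff]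
    push_cast
    exact all i

theorem result (a : ℤ) (_ha : a ≠ 0) (h : 0 < rk a) : {Q : ℤ | IsProper a Q}.Infinite := by
  have hN : (1 - 256 * a) ≠ 0 := by omega
  refine Set.infinite_of_injective_forall_mem
    (f := fun k : ℕ => -108 * (1 - 256 * a) ^ 2 * (2 * (k : ℤ) + 1) ^ 6) ?_ ?_
  · intro m n hmn
    simp only at hmn
    have h1 : (2 * (m : ℤ) + 1) ^ 6 = (2 * (n : ℤ) + 1) ^ 6 :=
      mul_left_cancel₀ (mul_ne_zero (by norm_num) (pow_ne_zero _ hN)) hmn
    have h2 : (2 * (m : ℤ) + 1) = (2 * (n : ℤ) + 1) :=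
      (pow_left_inj₀ (by positivity) (by positivity) (by norm_num)).mp h1
    omega
  · intro k
    exact proper a h _ ⟨k, rfl⟩

end Pool.Agent.Results.MP_cfe824_nt.Full
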